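import Pool.Agent.helper64.NQ.Spec

/-!
# EXR of project nq (MP_baa4d7_al): extendible and fully ramified characters
-/

set_option autoImplicit false

namespace Pool.Agent.NQ

open Pool.Agent.helper58.DC Pool.Agent.DI Pool.Agent.DR

theorem EXR_om_inv {Q : Type} [Group Q] (α : Q → Q → ℂˣ) (y z : Q) :
    om α⁻¹ y z = (om α y z)⁻¹ := by
  unfold om
  rw [Pi.inv_apply, Pi.inv_apply, Pi.inv_apply, Pi.inv_apply, inv_inv, mul_inv, inv_inv]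

theorem EXR_Rd {Q : Type} [Group Q] (α : Q → Q → ℂˣ) :
    Rd (⊤ : Subgroup Q) (om α⁻¹) = {z | ∀ y, om α y z = 1} := by
  ext z
  constructor
  · rintro ⟨-, h⟩ y
    have h1 := h y (Subgroup.mem_top y)
    rwa [EXR_om_inv, inv_eq_one] at h1
  · intro h
    refine ⟨Subgroup.mem_top z, fun y _ => ?_⟩
    rw [EXR_om_inv, inv_eq_one]
    exact h y

theorem EXR_card (hTCL : TCL_stmt) (hB2 : Pool.Agent.DI.B2_stmt)
    (Γ Q : Type) [Group Γ] [Finite Γ] [Group Q] [Finite Q] (q : Γ →* Q) (S : Subgroup Γ)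
    (hS : S.map q = ⊤) (ψ : Γ → ℂ) (hψ : ψ ∈ IrrOn (S ⊓ q.ker)) (α : Q → Q → ℂˣ)
    (hα : α ∈ Coc Q) (hA : Asc S q ψ α) (P : ℕ → Prop) :
    Nat.card {φ : Γ → ℂ // φ ∈ IrrOn S ∧ ∃ e : ℕ, P e ∧ ∀ x ∈ S ⊓ q.ker, φ x = e * ψ x} =
      GN (⊤ : Subgroup Q) α⁻¹ P := by
  rw [← hTCL Γ Q q S hS ψ hψ α hα hA ⊤ inferInstance P]
  rw [Subgroup.comap_top, inf_top_eq]
  refine Nat.card_congr (Equiv.subtypeEquivRight fun φ => ?_)
  constructor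
  · rintro ⟨h1, h2⟩
    refine ⟨h1, h2, fun s hs => ?_⟩
    funext g
    have h3 := ((hB2 Γ S).2 φ h1).2.1 g s⁻¹ (S.inv_mem hs)
    rw [inv_inv] at h3
    rw [← h3]
    unfold funMap
    rw [← map_inv]
    rw [MulAut.conj_apply, inv_inv]
  · rintro ⟨h1, h2, -⟩
    exact ⟨h1, h2⟩

theorem EXR (hGNC : GNC_stmt) (hGN1 : GN1_stmt) (hPEX : PEX_stmt) (hOMA : OMA_stmt)
    (hTCL : TCL_stmt) (hB2 : Pool.Agent.DI.B2_stmt) : EXR_stmt := by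
  intro Γ Q _ _ _ _ q S hS hQ ψ hψ hinv α hα hA
  have hαi : α⁻¹ ∈ Coc Q := inv_mem hα
  obtain ⟨σ₀, k₀, h0⟩ := hPEX Γ Q q S hS ψ hψ hinv α hα hA ⊤
  have hR := EXR_Rd α
  obtain ⟨hG1, hG2⟩ := hGNC Q hQ ⊤ α⁻¹ hαi ⟨σ₀, k₀, h0⟩ (by
    rintro z ⟨-, hz⟩ y
    exact hz y (Subgroup.mem_top y))
  have hk : ∀ (σ : Q → ℂ) (k : ℕ), PIrr (⊤ : Subgroup Q) α⁻¹ σ k →
      k ^ 2 * Nat.card (Rd (⊤ : Subgroup Q) (om α⁻¹)) = Nat.card Q := by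
    intro σ k hσ
    have h1 := (hGN1 Q ⊤ (fun x _ y _ => hQ x y) α⁻¹ hαi σ k hσ).2.2
    rw [h1, Subgroup.card_top]
  have hone : (1 : Q) ∈ Rd (⊤ : Subgroup Q) (om α⁻¹) := by
    rw [hR]
    intro y
    unfold om
    rw [hα.2.2 y, hα.2.1 y, inv_one, mul_one]
  have : Finite (Rd (⊤ : Subgroup Q) (om α⁻¹)) := Subtype.finite
  have : Nonempty (Rd (⊤ : Subgroup Q) (om α⁻¹)) := ⟨⟨1, hone⟩⟩
  have hRpos : 0 < Nat.card (Rd (⊤ : Subgroup Q) (om α⁻¹)) := Nat.card_pos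
  have hcard := EXR_card hTCL hB2 Γ Q q S hS ψ hψ α hα hA
  constructor
  · -- first statement
    have hfinB : Finite {σ : Q → ℂ // ∃ k, PIrr (⊤ : Subgroup Q) α⁻¹ σ k ∧
        (fun _ => True) k ∧ PInv (⊤ : Subgroup Q) α⁻¹ σ} := by
      apply Nat.finite_of_card_ne_zero
      change GN (⊤ : Subgroup Q) α⁻¹ (fun _ => True) ≠ 0
      rw [hG2]
      exact hRpos.ne'
    have hfin1 : Finite {σ : Q → ℂ // ∃ k, PIrr (⊤ : Subgroup Q) α⁻¹ σ k ∧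
        k = 1 ∧ PInv (⊤ : Subgroup Q) α⁻¹ σ} := by
      refine Finite.of_injective (β := {σ : Q → ℂ // ∃ k, PIrr (⊤ : Subgroup Q) α⁻¹ σ k ∧
        (fun _ => True) k ∧ PInv (⊤ : Subgroup Q) α⁻¹ σ}) (fun σ => ⟨σ.1, ?_⟩) ?_
      · obtain ⟨k, h1, -, h2⟩ := σ.2
        exact ⟨k, h1, trivial, h2⟩
      · intro a b hab
        exact Subtype.ext (Subtype.mk.inj hab)
    have hc1 : Nat.card {φ : Γ → ℂ // φ ∈ IrrOn S ∧
        ∃ e : ℕ, e = 1 ∧ ∀ x ∈ S ⊓ q.ker, φ x = e * ψ x} =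
        Nat.card {σ : Q → ℂ // ∃ k, PIrr (⊤ : Subgroup Q) α⁻¹ σ k ∧
        k = 1 ∧ PInv (⊤ : Subgroup Q) α⁻¹ σ} := hcard (fun e => e = 1)
    have hfinA : Finite {φ : Γ → ℂ // φ ∈ IrrOn S ∧
        ∃ e : ℕ, e = 1 ∧ ∀ x ∈ S ⊓ q.ker, φ x = e * ψ x} := by
      have : Finite (IrrOn S) := (hB2 Γ S).1.to_subtype
      refine Finite.of_injective (β := IrrOn S) (fun φ => ⟨φ.1, φ.2.1⟩) ?_
      intro a b hab
      exact Subtype.ext (Subtype.mk.inj hab)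
    constructor
    · rintro ⟨φ, hφ, hφψ⟩ y z
      have : Nonempty {φ : Γ → ℂ // φ ∈ IrrOn S ∧
          ∃ e : ℕ, e = 1 ∧ ∀ x ∈ S ⊓ q.ker, φ x = e * ψ x} :=
        ⟨⟨φ, hφ, 1, rfl, fun x hx => by rw [Nat.cast_one, one_mul, hφψ x hx]⟩⟩
      have h1 : 0 < Nat.card {φ : Γ → ℂ // φ ∈ IrrOn S ∧
        ∃ e : ℕ, e = 1 ∧ ∀ x ∈ S ⊓ q.ker, φ x = e * ψ x} := Nat.card_pos
      rw [hc1] at h1
      obtain ⟨⟨σ, k, hσ, rfl, -⟩⟩ := (Nat.card_pos_iff.1 h1).1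
      have h2 := hk σ 1 hσ
      rw [one_pow, one_mul] at h2
      have h3 : Rd (⊤ : Subgroup Q) (om α⁻¹) = Set.univ := by
        apply Set.eq_of_subset_of_ncard_le (Set.subset_univ _)
        · rw [Set.ncard_univ]
          exact h2.ge
      have h4 : z ∈ Rd (⊤ : Subgroup Q) (om α⁻¹) := by
        rw [h3]
        exact Set.mem_univ z
      rw [hR] at h4
      exact h4 y
    · intro h
      have h3 : Rd (⊤ : Subgroup Q) (om α⁻¹) = Set.univ := by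
        rw [hR]
        ext z
        exact ⟨fun _ => Set.mem_univ z, fun _ y => h y z⟩
      have h2 := hk σ₀ k₀ h0
      rw [h3, Nat.card_univ] at h2
      have h5 : 0 < Nat.card Q := Nat.card_pos
      have h4 : k₀ ^ 2 = 1 := by
        apply Nat.eq_of_mul_eq_mul_right h5
        rw [h2, one_mul]
      have h6 : k₀ = 1 := by
        rcases Nat.pow_eq_one.1 h4 with h | h
        · exact h
        · exact absurd h (by norm_num)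
      subst h6
      have : Nonempty {σ : Q → ℂ // ∃ k, PIrr (⊤ : Subgroup Q) α⁻¹ σ k ∧
        k = 1 ∧ PInv (⊤ : Subgroup Q) α⁻¹ σ} := ⟨⟨σ₀, 1, h0, rfl, hG1 σ₀ 1 h0⟩⟩
      have h7 : 0 < Nat.card {σ : Q → ℂ // ∃ k, PIrr (⊤ : Subgroup Q) α⁻¹ σ k ∧
        k = 1 ∧ PInv (⊤ : Subgroup Q) α⁻¹ σ} := Nat.card_pos
      rw [← hc1] at h7
      obtain ⟨⟨φ, hφ, e, rfl, he⟩⟩ := (Nat.card_pos_iff.1 h7).1
      exact ⟨φ, hφ, fun x hx => by rw [he x hx, Nat.cast_one, one_mul]⟩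
  · -- second statement
    have hc : Nat.card {φ : Γ → ℂ // φ ∈ IrrOn S ∧
        ∃ e : ℕ, True ∧ ∀ x ∈ S ⊓ q.ker, φ x = e * ψ x} =
        Nat.card (Rd (⊤ : Subgroup Q) (om α⁻¹)) := by
      rw [← hG2]
      exact hcard (fun _ => True)
    have hu1 : (∃! φ : Γ → ℂ, φ ∈ IrrOn S ∧ ∃ e : ℕ, ∀ x ∈ S ⊓ q.ker, φ x = e * ψ x) ↔
        Nat.card {φ : Γ → ℂ // φ ∈ IrrOn S ∧
          ∃ e : ℕ, True ∧ ∀ x ∈ S ⊓ q.ker, φ x = e * ψ x} = 1 := by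
      rw [Nat.card_eq_one_iff_exists]
      constructor
      · rintro ⟨φ, ⟨h1, e, he⟩, h2⟩
        refine ⟨⟨φ, h1, e, trivial, he⟩, ?_⟩
        rintro ⟨φ', h1', e', -, he'⟩
        exact Subtype.ext (h2 φ' ⟨h1', e', he'⟩)
      · rintro ⟨⟨φ, h1, e, ht, he⟩, h2⟩
        refine ⟨φ, ⟨h1, e, he⟩, ?_⟩
        rintro φ' ⟨h1', e', he'⟩
        exact Subtype.mk.inj (h2 ⟨φ', h1', e', trivial, he'⟩)
    rw [hu1, hc, Nat.card_eq_one_iff_exists]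
    constructor
    · rintro ⟨w, hw⟩ z hz
      have hz' : z ∈ Rd (⊤ : Subgroup Q) (om α⁻¹) := by
        rw [hR]
        exact hz
      have h1 := hw ⟨z, hz'⟩
      have h2 := hw ⟨1, hone⟩
      rw [← h2] at h1
      exact Subtype.mk.inj h1
    · intro h
      refine ⟨⟨1, hone⟩, ?_⟩
      rintro ⟨z, hz⟩
      rw [hR] at hz
      exact Subtype.ext (h z hz)

end Pool.Agent.NQ
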